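import Pool.Agent.H5.GridDist

set_option autoImplicit false

namespace Pool.Agent.Results.MP_ae055e_co.Counter

theorem result (c : ℝ) : ∃ d n : ℕ, 3 ≤ d ∧ 2 ≤ n ∧ ∃ S : Finset (Fin d → ℤ),
    (∀ x ∈ S, ∀ i, 1 ≤ x i ∧ x i ≤ n) ∧
    (∀ x ∈ S, ∀ y ∈ S, ∀ z ∈ S, ∀ w ∈ S, x ≠ y → z ≠ w →
      √(∑ i, ((x i : ℝ) - y i) ^ 2) = √(∑ i, ((z i : ℝ) - w i) ^ 2) →
      (x = z ∧ y = w) ∨ (x = w ∧ y = z)) ∧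
    c * (d : ℝ) ^ (2 / 3 : ℝ) * (n : ℝ) ^ (2 / 3 : ℝ) * (Real.log n) ^ (1 / 3 : ℝ) ≤ S.card :=
  H5.GridDist.main c

end Pool.Agent.Results.MP_ae055e_co.Counter
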